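import Pool.Agent.H18.HIT.Targets

/-! # Zariski dense orbits: module DET (determinants of values of polynomials) -/

open MvPolynomial
open Pool.Agent.H12.ZD (pmap v O Res DenseOrbit NoInv)
open Pool.Agent.H18.HIT

namespace Pool.Agent.H48.HIT

/-- Newton interpolation -/
theorem newton {R : Type} [CommRing R] (T : ℕ → R) (F : Polynomial R) (n : ℕ) :
    ∃ (c : ℕ → R) (G : Polynomial R), F =
      (∑ m ∈ Finset.range n, Polynomial.C (c m) *
        ∏ l ∈ Finset.range m, (Polynomial.X - Polynomial.C (T l))) +
      (∏ l ∈ Finset.range n, (Polynomial.X - Polynomial.C (T l))) * G := by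
  classical
  induction n with
  | zero =>
    refine ⟨0, F, ?_⟩
    simp
  | succ n ih =>
    obtain ⟨c, G, h⟩ := ih
    obtain ⟨G', hG'⟩ := Polynomial.X_sub_C_dvd_sub_C_eval (a := T n) (p := G)
    refine ⟨fun m => if m = n then G.eval (T n) else c m, G', ?_⟩
    have h1 : G = Polynomial.C (G.eval (T n)) + (Polynomial.X - Polynomial.C (T n)) * G' := by
      rw [← hG']
      ring
    beta_reduce
    rw [Finset.sum_range_succ, if_pos rfl, Finset.prod_range_succ]
    have h2 : ∑ m ∈ Finset.range n, Polynomial.C (if m = n then G.eval (T n) else c m) *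
        ∏ l ∈ Finset.range m, (Polynomial.X - Polynomial.C (T l)) =
        ∑ m ∈ Finset.range n, Polynomial.C (c m) *
        ∏ l ∈ Finset.range m, (Polynomial.X - Polynomial.C (T l)) := by
      refine Finset.sum_congr rfl fun m hm => ?_
      rw [if_neg (Finset.mem_range.1 hm).ne]
    rw [h2]
    conv_lhs => rw [h, h1]
    ring

theorem pf_DET : T_DET := by
  classical
  intro R _ r F t
  obtain ⟨T, hT⟩ : ∃ T : ℕ → R, ∀ j : Fin r, T j = t j :=
    ⟨fun n => if h : n < r then t ⟨n, h⟩ else 0, fun j => by
      beta_reduce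
      rw [dif_pos j.2]⟩
  choose c G hF using fun i : Fin r => newton T (F i) r
  have hz : ∀ (m : ℕ) (j : Fin r), (j : ℕ) < m →
      (∏ l ∈ Finset.range m, (Polynomial.X - Polynomial.C (T l))).eval (t j) = 0 := by
    intro m j hj
    rw [Polynomial.eval_prod]
    refine Finset.prod_eq_zero (Finset.mem_range.2 hj) ?_
    rw [Polynomial.eval_sub, Polynomial.eval_X, Polynomial.eval_C, hT, sub_self]
  obtain ⟨V, hV⟩ : ∃ V : Matrix (Fin r) (Fin r) R, V = Matrix.of fun m j =>
    (∏ l ∈ Finset.range (m : ℕ), (Polynomial.X - Polynomial.C (T l))).eval (t j) := ⟨_, rfl⟩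
  have h1 : (Matrix.of fun i j => (F i).eval (t j)) =
      (Matrix.of fun (i m : Fin r) => c i m) * V := by
    ext i j
    rw [Matrix.mul_apply, Matrix.of_apply]
    conv_lhs => rw [hF i]
    rw [Polynomial.eval_add, Polynomial.eval_mul, hz r j j.2, zero_mul, add_zero,
      Polynomial.eval_finsetSum, Finset.sum_range]
    refine Finset.sum_congr rfl fun m _ => ?_
    rw [Polynomial.eval_mul, Polynomial.eval_C, hV, Matrix.of_apply, Matrix.of_apply]
  have h2 : V.det = ∏ i, ∏ j ∈ Finset.Ioi i, (t j - t i) := by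
    have h3 : V.IsUpperTriangular := by
      intro i j hij
      rw [hV, Matrix.of_apply]
      exact hz i j hij
    rw [Matrix.det_of_isUpperTriangular h3]
    have h4 : ∀ j : Fin r, V j j = ∏ i ∈ Finset.Iio j, (t j - t i) := by
      intro j
      rw [hV, Matrix.of_apply, Polynomial.eval_prod]
      have h5 : Finset.range (j : ℕ) = (Finset.Iio j).map Fin.valEmbedding := by
        rw [Fin.map_valEmbedding_Iio]
        exact (Nat.Iio_eq_range _).symm
      rw [h5, Finset.prod_map]
      refine Finset.prod_congr rfl fun i _ => ?_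
      rw [Polynomial.eval_sub, Polynomial.eval_X, Polynomial.eval_C]
      exact congrArg (fun y => t j - y) (hT i)
    rw [Finset.prod_congr rfl fun j _ => h4 j]
    refine Finset.prod_comm' fun a b => ?_
    simp
  rw [h1, Matrix.det_mul, h2]
  exact Dvd.intro_left _ rfl

end Pool.Agent.H48.HIT
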