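import Pool.Agent.H18.HIT.Targets

/-! # Zariski dense orbits: module FIN (finite colength) -/

open MvPolynomial
open Pool.Agent.H12.ZD (pmap v O Res DenseOrbit NoInv)
open Pool.Agent.H18.HIT

namespace Pool.Agent.H48.HIT

theorem fin_aux {N : ℕ} {k : Type} [Field k] (x : Fin N → k) (l : ℕ) :
    ∃ B : Finset (Po N k), ∀ q : Po N k, ∃ b ∈ Submodule.span k (B : Set (Po N k)),
      q - b ∈ mx x ^ l := by
  classical
  induction l with
  | zero =>
    refine ⟨∅, fun q => ⟨0, Submodule.zero_mem _, ?_⟩⟩
    rw [pow_zero, Ideal.one_eq_top]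
    exact Submodule.mem_top
  | succ l ih =>
    obtain ⟨B, hB⟩ := ih
    obtain ⟨S, hS⟩ := IsNoetherian.noetherian (mx x ^ l)
    have hS' : ∀ s ∈ S, s ∈ mx x ^ l := fun s hs => by
      rw [← hS]
      exact Submodule.subset_span hs
    have hspan : ∀ b ∈ Submodule.span k (S : Set (Po N k)), b ∈ mx x ^ l := by
      intro b hb
      have h1 : Submodule.span k (S : Set (Po N k)) ≤ (mx x ^ l).restrictScalars k :=
        Submodule.span_le.2 fun s hs => hS' s hs
      exact h1 hb
    have key : ∀ h : Po N k, h ∈ mx x ^ l → ∃ b ∈ Submodule.span k (S : Set (Po N k)),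
        h - b ∈ mx x ^ (l + 1) := by
      intro h hh
      rw [← hS] at hh
      induction hh using Submodule.span_induction with
      | mem s hs =>
        refine ⟨s, Submodule.subset_span hs, ?_⟩
        rw [sub_self]
        exact Submodule.zero_mem _
      | zero =>
        refine ⟨0, Submodule.zero_mem _, ?_⟩
        rw [sub_self]
        exact Submodule.zero_mem _
      | add a b _ _ ha hb =>
        obtain ⟨a', ha', ha''⟩ := ha
        obtain ⟨b', hb', hb''⟩ := hb
        refine ⟨a' + b', Submodule.add_mem _ ha' hb', ?_⟩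
        have h1 : a + b - (a' + b') = (a - a') + (b - b') := by ring
        rw [h1]
        exact Submodule.add_mem _ ha'' hb''
      | smul c a _ ha =>
        obtain ⟨a', ha', ha''⟩ := ha
        refine ⟨eval x c • a', Submodule.smul_mem _ _ ha', ?_⟩
        have h1 : c • a - eval x c • a' = c * (a - a') + (c - C (eval x c)) * a' := by
          rw [smul_eq_mul, smul_eq_C_mul]
          ring
        rw [h1]
        refine Submodule.add_mem _ (Ideal.mul_mem_left _ _ ha'') ?_
        rw [pow_succ, mul_comm (mx x ^ l)]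
        exact Ideal.mul_mem_mul (sub_C_eval_mem_mx x c) (hspan a' ha')
    refine ⟨B ∪ S, fun q => ?_⟩
    obtain ⟨b, hb, hq⟩ := hB q
    obtain ⟨b', hb', hq'⟩ := key _ hq
    refine ⟨b + b', Submodule.add_mem _ ?_ ?_, ?_⟩
    · exact Submodule.span_mono (by simp) hb
    · exact Submodule.span_mono (by simp) hb'
    · have h1 : q - (b + b') = q - b - b' := by ring
      rw [h1]
      exact hq'

theorem pf_FIN : T_FIN := by
  intro N k _ I l x
  obtain ⟨B, hB⟩ := fin_aux x l
  refine Module.Finite.of_surjective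
    ((Ideal.Quotient.mkₐ k (I ⊔ mx x ^ l)).toLinearMap ∘ₗ
      (Submodule.span k (B : Set (Po N k))).subtype) ?_
  intro y
  obtain ⟨q, rfl⟩ := Ideal.Quotient.mk_surjective y
  obtain ⟨b, hb, hq⟩ := hB q
  refine ⟨⟨b, hb⟩, ?_⟩
  change Ideal.Quotient.mk _ b = Ideal.Quotient.mk _ q
  rw [eq_comm, Ideal.Quotient.mk_eq_mk_iff_sub_mem]
  exact Ideal.mem_sup_right hq

end Pool.Agent.H48.HIT
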