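import Pool.Agent.H18.HIT.Targets

/-! # Zariski dense orbits: module KER (vanishing determinants) -/

open MvPolynomial
open Pool.Agent.H12.ZD (pmap v O Res DenseOrbit NoInv)
open Pool.Agent.H18.HIT

namespace Pool.Agent.H48.HIT

theorem pf_KER : T_KER := by
  classical
  intro K _ ι r w hdet _
  obtain ⟨W, hW⟩ : ∃ W, W = Submodule.span K (Set.range w) := ⟨_, rfl⟩
  have hlt : W < ⊤ := by
    rw [lt_top_iff_ne_top]
    intro htop
    obtain ⟨f, hf, -, hli⟩ := Submodule.exists_fun_fin_finrank_span_eq K (Set.range w)
    have hr : Module.finrank K (Submodule.span K (Set.range w)) = r := by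
      rw [← hW, htop, finrank_top, Module.finrank_fin_fun]
    choose s hs using hf
    have h1 := hdet fun i => s (Fin.cast hr.symm i)
    have h2 : LinearIndependent K (fun i : Fin r => f (Fin.cast hr.symm i)) :=
      hli.comp _ (Fin.cast_injective _)
    have h3 : (Matrix.of fun i j => w (s (Fin.cast hr.symm i)) j) =
        Matrix.of fun i : Fin r => f (Fin.cast hr.symm i) := by
      ext i j
      rw [Matrix.of_apply, Matrix.of_apply, hs]
    rw [h3] at h1
    have h4 : IsUnit (Matrix.of fun i : Fin r => f (Fin.cast hr.symm i)) :=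
      Matrix.linearIndependent_rows_iff_isUnit.1 h2
    rw [Matrix.isUnit_iff_isUnit_det, h1] at h4
    exact not_isUnit_zero h4
  obtain ⟨f, hf0, hf⟩ := Submodule.exists_le_ker_of_lt_top W hlt
  refine ⟨fun j => f (fun i => if j = i then 1 else 0), ?_, fun i => ?_⟩
  · intro h
    apply hf0
    refine LinearMap.ext fun y => ?_
    rw [LinearMap.pi_apply_eq_sum_univ f y, LinearMap.zero_apply]
    refine Finset.sum_eq_zero fun j _ => ?_
    have h1 := congrFun h j
    change f (fun i => if j = i then 1 else 0) = 0 at h1
    rw [h1, smul_zero]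
  · have h1 : f (w i) = 0 := by
      have h2 : w i ∈ W := by
        rw [hW]
        exact Submodule.subset_span ⟨i, rfl⟩
      exact hf h2
    rw [LinearMap.pi_apply_eq_sum_univ f (w i)] at h1
    refine Eq.trans (Finset.sum_congr rfl fun j _ => ?_) h1
    rw [smul_eq_mul, mul_comm]

end Pool.Agent.H48.HIT
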